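import Pool.Agent.helper88.PF.Spec

/-! # Row `BSO` of project pf: one pair of quantifiers -/

set_option linter.unusedVariables false

namespace PF

noncomputable section

open Classical in
/-- one step: keep `y` if it is good, otherwise move to a good `v` above `y` if there is one -/
def BSO_G {Γ β₀ α β : Po} (Θ : Γ → β₀ → α → β → Prop) (y : β) (i : Γ × β₀ × Set (α × β) × α) : β :=
  if (i.2.2.2, y) ∈ i.2.2.1 ∧ Θ i.1 i.2.1 i.2.2.2 y then y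
  else if h : ∃ v, y ≤ v ∧ (i.2.2.2, v) ∈ i.2.2.1 ∧ Θ i.1 i.2.1 i.2.2.2 v then h.choose else y

theorem BSO_G_le {Γ β₀ α β : Po} (Θ : Γ → β₀ → α → β → Prop) (y : β)
    (i : Γ × β₀ × Set (α × β) × α) : y ≤ BSO_G Θ y i := by
  unfold BSO_G
  split_ifs with h1 h2
  · exact le_rfl
  · exact h2.choose_spec.1
  · exact le_rfl

theorem BSO_G_mem {Γ β₀ α β : Po} (Θ : Γ → β₀ → α → β → Prop) (y : β)
    (i : Γ × β₀ × Set (α × β) × α) : BSO_G Θ y i = y ∨ (i.2.2.2, BSO_G Θ y i) ∈ i.2.2.1 := by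
  unfold BSO_G
  split_ifs with h1 h2
  · exact Or.inl rfl
  · exact Or.inr h2.choose_spec.2.1
  · exact Or.inl rfl

theorem BSO_G_fix {Γ β₀ α β : Po} (Θ : Γ → β₀ → α → β → Prop) (y : β)
    (i : Γ × β₀ × Set (α × β) × α) (h : BSO_G Θ y i = y)
    (hex : ∃ v, y ≤ v ∧ (i.2.2.2, v) ∈ i.2.2.1 ∧ Θ i.1 i.2.1 i.2.2.2 v) :
    Θ i.1 i.2.1 i.2.2.2 y := by
  by_cases h1 : (i.2.2.2, y) ∈ i.2.2.1 ∧ Θ i.1 i.2.1 i.2.2.2 y
  · exact h1.2
  · unfold BSO_G at h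
    rw [if_neg h1, dif_pos hex] at h
    have h2 := hex.choose_spec.2.2
    rw [h] at h2
    exact h2

theorem BSO_const {β : Po} (f : ℕ → β) (hf : ∀ s, f s ≤ f (s + 1)) :
    ∃ s₀, ∀ s, s₀ ≤ s → f s = f s₀ := by
  obtain ⟨n, hn⟩ := WellFoundedGT.monotone_chain_condition (⟨f, monotone_nat_of_le_succ hf⟩ : ℕ →o β)
  exact ⟨n, fun s hs => (hn s hs).symm⟩

theorem BSO (hACL : ACL_stmt) (hACP : ACP_stmt) (hARC : ARC_stmt) (hAAP : AAP_stmt)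
    (hALI : ALI_stmt) : BSO_stmt := by
  intro Γ β₀ α β Θ γ t D x hγ ht hD hx hcl
  obtain ⟨Aγ, cγ, mγ, lγ, eγ⟩ := hAAP Γ γ hγ
  obtain ⟨At, ct, mt, lt, et⟩ := hAAP β₀ t ht
  obtain ⟨AD, cD, mD, lD, eD⟩ := hAAP ((α.prod β).set) D hD
  obtain ⟨Ax, cx, mx, lx, ex⟩ := hAAP α x hx
  have hpair := hACP.2.1
  have hI : Cmp (fun z : ℕ × ℕ => ((Aγ z, At z, AD z, Ax z) : Γ × β₀ × Set (α × β) × α)) := by
    have h1 := hpair (ℕ × ℕ) _ _ AD Ax cD cx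
    have h2 := hpair (ℕ × ℕ) _ _ At _ ct h1
    exact hpair (ℕ × ℕ) _ _ Aγ _ cγ h2
  obtain ⟨S, cS, S0, S1⟩ := hARC ℕ β (Γ × β₀ × Set (α × β) × α) ⊥ (BSO_G Θ)
    (fun z : ℕ × ℕ => ((Aγ z, At z, AD z, Ax z) : Γ × β₀ × Set (α × β) × α)) hI
  have hmono : ∀ p s, S (p, s) ≤ S (p, s + 1) := by
    intro p s
    rw [S1]
    exact BSO_G_le _ _ _
  have hconst : ∀ p, ∃ s₀, ∀ s, s₀ ≤ s → S (p, s) = S (p, s₀) :=
    fun p => BSO_const (fun s => S (p, s)) (hmono p)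
  choose N hN using hconst
  refine ⟨fun p => S (p, N p), hALI β _ S cS hmono (fun p => ⟨N p, hN p⟩), ?_⟩
  unfold AE at hcl ⊢
  refine hcl.subset ?_
  intro p hp hcon
  apply hp
  obtain ⟨hc1, hc2, hc3⟩ := hcon
  have hinv : ∀ s, (x p, S (p, s)) ∈ D p := by
    intro s
    induction s with
    | zero =>
      rw [S0]
      exact hc2 ⊥ (x p) ⊥ bot_le hc1
    | succ s ih =>
      rw [S1]
      rcases BSO_G_mem Θ (S (p, s)) (Aγ (p, s), At (p, s), AD (p, s), Ax (p, s)) with h | h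
      · rw [h]; exact ih
      · exact hc2 (Ax (p, s)) (x p) _ (lx p s) (lD p s h)
  obtain ⟨s1, hs1⟩ := eγ p
  obtain ⟨s2, hs2⟩ := et p
  obtain ⟨s3, hs3⟩ := eD p
  obtain ⟨s4, hs4⟩ := ex p
  set s := max (max (max s1 s2) (max s3 s4)) (N p) with hs
  have e1 : Aγ (p, s) = γ p := hs1 s (by rw [hs]; omega)
  have e2 : At (p, s) = t p := hs2 s (by rw [hs]; omega)
  have e3 : AD (p, s) = D p := hs3 s (by rw [hs]; omega)
  have e4 : Ax (p, s) = x p := hs4 s (by rw [hs]; omega)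
  have e5 : S (p, s) = S (p, N p) := hN p s (by rw [hs]; omega)
  have e6 : S (p, s + 1) = S (p, N p) := hN p (s + 1) (by rw [hs]; omega)
  have e7 := S1 p s
  rw [e6, e5] at e7
  have e8 : BSO_G Θ (S (p, N p)) (γ p, t p, D p, x p) = S (p, N p) := by
    rw [← e1, ← e2, ← e3, ← e4]
    exact e7.symm
  have hex := hc3 (x p) (S (p, N p)) (hinv (N p))
  exact BSO_G_fix Θ (S (p, N p)) (γ p, t p, D p, x p) e8 hex

end

end PF
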