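import Pool.Agent.helper88.PF.Spec

/-! # Row `CSA` of project pf: sentences over the quotient lattice -/

set_option linter.unusedVariables false

namespace PF

noncomputable section

/-- the value of a term in `CES` -/
def CSA_tv (A : List CES) : Tm → CES
  | .var i => A.getD i CES.empty
  | .bot => CES.empty
  | .top => CES.univ
  | .sup a b => CES.union (CSA_tv A a) (CSA_tv A b)
  | .inf a b => CES.inter (CSA_tv A a) (CSA_tv A b)

theorem CSA_ev (A : List CES) (t : Tm) :
    t.ev (fun i => (A.map EStar.mk).getD i ⊥) = EStar.mk (CSA_tv A t) := by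
  induction t with
  | var i =>
    show (A.map EStar.mk).getD i (EStar.mk CES.empty) = EStar.mk (A.getD i CES.empty)
    exact List.getD_map ..
  | bot => rfl
  | top => rfl
  | sup a b iha ihb =>
    show a.ev _ ⊔ b.ev _ = _
    rw [iha, ihb]
    rfl
  | inf a b iha ihb =>
    show a.ev _ ⊓ b.ev _ = _
    rw [iha, ihb]
    rfl

theorem CSA_mem (A : List CES) (t : Tm) (p : ℕ) :
    p ∈ (CSA_tv A t).1 ↔ t.ev (fun i => (A.map (fun B : CES => p ∈ B.1)).getD i False) := by
  induction t with
  | var i =>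
    have h : (A.map (fun B : CES => p ∈ B.1)).getD i (p ∈ CES.empty.1) =
        (p ∈ (A.getD i CES.empty).1) := List.getD_map ..
    show p ∈ (A.getD i CES.empty).1 ↔ (A.map (fun B : CES => p ∈ B.1)).getD i False
    rw [← h]
    rfl
  | bot => exact Iff.rfl
  | top => exact Iff.rfl
  | sup a b iha ihb =>
    show (p ∈ (CSA_tv A a).1 ∨ p ∈ (CSA_tv A b).1) ↔ (a.ev _ ∨ b.ev _)
    rw [iha, ihb]
  | inf a b iha ihb =>
    show (p ∈ (CSA_tv A a).1 ∧ p ∈ (CSA_tv A b).1) ↔ (a.ev _ ∧ b.ev _)
    rw [iha, ihb]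

theorem CSA_holds (A : List CES) (φ : Fm) :
    φ.Holds (fun i => (A.map EStar.mk).getD i ⊥) ↔
      φ.HAE (fun p i => (A.map (fun B : CES => p ∈ B.1)).getD i False) := by
  induction φ with
  | eq a b =>
    show (a.ev _ = b.ev _) ↔ AE _
    rw [CSA_ev, CSA_ev, EStar.mk_eq]
    unfold AE
    have : symmDiff (CSA_tv A a).1 (CSA_tv A b).1 =
        {p | ¬ eqAt (fun i => (A.map (fun B : CES => p ∈ B.1)).getD i False) (a, b)} := by
      ext p
      rw [Set.mem_ofPred_eq]
      unfold eqAt
      rw [← CSA_mem, ← CSA_mem, Set.mem_symmDiff]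
      tauto
    rw [this]
  | neg a ih =>
    show (¬ a.Holds _) ↔ ¬ a.HAE _
    rw [ih]
  | and a b iha ihb =>
    show (a.Holds _ ∧ b.Holds _) ↔ (a.HAE _ ∧ b.HAE _)
    rw [iha, ihb]
  | or a b iha ihb =>
    show (a.Holds _ ∨ b.Holds _) ↔ (a.HAE _ ∨ b.HAE _)
    rw [iha, ihb]

theorem CSA_gen (hACL : ACL_stmt) (q : List Bool) (φ : Fm) : ∀ A : List CES,
    Sat EStar q φ (A.map EStar.mk) ↔
      Qm q (fun c => φ.HAE (fun p i => (c p).getD i False)) (fun p => A.map (fun B : CES => p ∈ B.1)) := by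
  have hre := hACL.2.2.2.2.2.1
  induction q with
  | nil =>
    intro A
    exact CSA_holds A φ
  | cons b q ih =>
    intro A
    cases b with
    | true =>
      constructor
      · intro h x hx
        exact (ih (⟨{n | x n}, (hre x).1 hx⟩ :: A)).1 (h (EStar.mk ⟨{n | x n}, (hre x).1 hx⟩))
      · intro h x
        induction x using Quotient.inductionOn with
        | h B =>
          exact (ih (B :: A)).2 (h (fun n => n ∈ B.1) ((hre _).2 B.2))
    | false =>
      constructor
      · rintro ⟨x, hx⟩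
        induction x using Quotient.inductionOn with
        | h B =>
          exact ⟨fun n => n ∈ B.1, (hre _).2 B.2, (ih (B :: A)).1 hx⟩
      · rintro ⟨x, hx, h⟩
        exact ⟨EStar.mk ⟨{n | x n}, (hre x).1 hx⟩, (ih (⟨{n | x n}, (hre x).1 hx⟩ :: A)).2 h⟩

theorem CSA (hACL : ACL_stmt) : CSA_stmt := by
  intro q φ
  exact CSA_gen hACL q φ []

end

end PF
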